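import Pool.Agent.H10.DapsC

namespace Pool.Agent.Results.MP_020ed8_lc.Bounds

open Pool.Agent.H10.Daps

theorem result :
    (∀ V : Inst, L V ≤ 2 / 5 → Feasible V) ∧
    (∃ V : Inst, L V ≤ 6265 / 10000 ∧ ¬ Feasible V) ∧
    2 / 5 ≤ alphaStar ∧ alphaStar ≤ 6265 / 10000 := by
  have hb : ∀ a ∈ {a : ℝ | ∀ V : Inst, L V ≤ a → Feasible V}, a ≤ 6265 / 10000 := by
    intro a ha
    by_contra hc
    exact ex_infeasible (ha ex (ex_L.trans (not_le.mp hc).le))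
  refine ⟨lower, ⟨ex, ex_L, ex_infeasible⟩, le_csSup ⟨_, hb⟩ lower, csSup_le ⟨_, lower⟩ hb⟩

end Pool.Agent.Results.MP_020ed8_lc.Bounds
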